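import Mathlib

set_option autoImplicit false

namespace Pool.Agent.Results.MP_130e73_co.NotDense
open Finset Filter Topology
open scoped Classical

/-- every vertex outside `S` has a neighbour in `S` -/
def Dominating {V : Type} (G : SimpleGraph V) (S : Finset V) : Prop :=
  ∀ v, v ∉ S → ∃ u ∈ S, G.Adj v u

/-- the domination polynomial evaluated at `x`: the sum of `x ^ |S|` over the nonempty dominating
sets `S` -/
noncomputable def domPoly {V : Type} [Fintype V] (G : SimpleGraph V) (x : ℝ) : ℝ :=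
  ∑ S ∈ univ.filter fun S : Finset V => S.Nonempty ∧ Dominating G S, x ^ S.card

def Dom (m : ℕ) (S : Finset ℕ) : Prop := ∀ i < m, i ∈ S ∨ i + 1 ∈ S ∨ ∃ j ∈ S, j + 1 = i

noncomputable def sm (x : ℝ) (n : ℕ) (P : Finset ℕ → Prop) : ℝ :=
  ∑ S ∈ (range n).powerset, if P S then x ^ S.card else 0

theorem sm_succ (x : ℝ) (n : ℕ) (P Q R : Finset ℕ → Prop) (h1 : ∀ S ⊆ range n, P S ↔ Q S)
    (h2 : ∀ S ⊆ range n, P (insert n S) ↔ R S) : sm x (n + 1) P = sm x n Q + x * sm x n R := by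
  rw [sm, range_add_one, sum_powerset_insert notMem_range_self, sm, sm, mul_sum]
  congr 1 <;> refine sum_congr rfl fun S hS => ?_
  · simp only [h1 S (mem_powerset.1 hS)]
  · have : n ∉ S := fun h => notMem_range_self (mem_powerset.1 hS h)
    simp only [h2 S (mem_powerset.1 hS), card_insert_of_notMem this, pow_succ', mul_ite, mul_zero]

noncomputable def p (x : ℝ) (n : ℕ) : ℝ := sm x n (Dom n)
noncomputable def q (x : ℝ) (n : ℕ) : ℝ := sm x n fun S => Dom n S ∧ ∃ j ∈ S, j + 1 = n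
noncomputable def r (x : ℝ) (n : ℕ) : ℝ := sm x n (Dom (n - 1))

theorem dom_ins (n m : ℕ) (S : Finset ℕ) (h1 : n ≤ m) (h2 : m ≤ n + 1) :
    Dom m (insert n S) ↔ Dom (n - 1) S := by
  constructor
  · intro h i hi
    simpa [show i ≠ n by omega, show i + 1 ≠ n by omega, show n + 1 ≠ i by omega] using h i (by omega)
  · intro h i hi
    by_cases e : i < n - 1
    · rcases h i e with h | h | ⟨j, h, h'⟩
      · exact Or.inl (mem_insert_of_mem h)
      · exact Or.inr (Or.inl (mem_insert_of_mem h))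
      · exact Or.inr (Or.inr ⟨j, mem_insert_of_mem h, h'⟩)
    · by_cases e' : i = n
      · simp [e']
      · simp [show i + 1 = n by omega]

theorem p_succ (x : ℝ) (n : ℕ) : p x (n + 1) = q x n + x * r x n := by
  refine sm_succ _ _ _ _ _ (fun S hS => ⟨fun h => ⟨fun i hi => h i (by omega), ?_⟩, ?_⟩)
    fun S _ => dom_ins _ _ _ (by omega) le_rfl
  · rcases h n (by omega) with h | h | h
    · simpa using hS h
    · simpa using hS h
    · exact h
  · rintro ⟨h1, h2⟩ i hi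
    rcases (Nat.lt_succ_iff.1 hi).eq_or_lt with rfl | hi
    · exact Or.inr (Or.inr h2)
    · exact h1 i hi

theorem q_succ (x : ℝ) (n : ℕ) : q x (n + 1) = x * r x n := by
  rw [q, sm_succ x n _ (fun _ => False) (Dom (n - 1))]
  · simp [sm, r]
  · intro S hS
    simp only [iff_false, not_and, not_exists]
    intro _ j hj e
    have := mem_range.1 (hS hj)
    omega
  · intro S _
    simp [dom_ins n (n + 1) S (by omega) le_rfl]

theorem r_succ (x : ℝ) (n : ℕ) : r x (n + 1) = p x n + x * r x n :=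
  sm_succ _ _ _ _ _ (fun _ _ => Iff.rfl) fun _ _ => dom_ins _ _ _ le_rfl (by omega)

theorem p_rec (x : ℝ) (n : ℕ) : p x (n + 3) = x * (p x (n + 2) + p x (n + 1) + p x n) := by
  simp only [p_succ x (n + 2), p_succ x (n + 1), q_succ, r_succ]
  ring

theorem p0 (x : ℝ) : p x 0 = 1 ∧ p x 1 = x ∧ p x 2 = x ^ 2 + 2 * x := by
  have a : p x 0 = 1 := by simp [p, sm, Dom]
  have b : q x 0 = 0 := by simp [q, sm]
  have c : r x 0 = 1 := by simp [r, sm, Dom]
  simp only [p_succ x 1, p_succ x 0, q_succ, r_succ, a, b, c]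
  exact ⟨trivial, by ring, by ring⟩

theorem dom_eq (x : ℝ) (n : ℕ) (hn : 0 < n) : domPoly (SimpleGraph.pathGraph n) x = p x n := by
  rw [domPoly, p, sm, ← sum_filter]
  refine sum_bij (fun S _ => S.map Fin.valEmbedding) ?_ (fun _ _ _ _ h => map_injective _ h) ?_
    (fun _ _ => by simp)
  · intro S hS
    refine mem_filter.2 ⟨mem_powerset.2 fun i hi => ?_, fun i hi => ?_⟩
    · obtain ⟨j, -, rfl⟩ := mem_map.1 hi
      simp
    · by_cases h : (⟨i, hi⟩ : Fin n) ∈ S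
      · exact Or.inl (mem_map.2 ⟨_, h, rfl⟩)
      · obtain ⟨u, h1, h2⟩ := (mem_filter.1 hS).2.2 _ h
        rcases SimpleGraph.pathGraph_adj.1 h2 with e | e
        · exact Or.inr (Or.inl (mem_map.2 ⟨u, h1, e.symm⟩))
        · exact Or.inr (Or.inr ⟨u, mem_map.2 ⟨u, h1, rfl⟩, e⟩)
  · intro T hT
    obtain ⟨h1, h2⟩ := mem_filter.1 hT
    have h3 : ∀ i ∈ T, i < n := fun i hi => mem_range.1 (mem_powerset.1 h1 hi)
    have h4 : Dominating (SimpleGraph.pathGraph n) (T.attachFin h3) := by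
      intro v hv
      rcases h2 v v.2 with h | h | ⟨j, h, e⟩
      · exact absurd ((mem_attachFin h3).2 h) hv
      · exact ⟨⟨_, h3 _ h⟩, (mem_attachFin h3).2 h, SimpleGraph.pathGraph_adj.2 (Or.inl rfl)⟩
      · exact ⟨⟨_, h3 _ h⟩, (mem_attachFin h3).2 h, SimpleGraph.pathGraph_adj.2 (Or.inr e)⟩
    refine ⟨T.attachFin h3, mem_filter.2 ⟨mem_univ _, ?_, h4⟩, map_valEmbedding_attachFin h3⟩
    by_cases h : (⟨0, hn⟩ : Fin n) ∈ T.attachFin h3
    · exact ⟨_, h⟩
    · exact (h4 _ h).imp fun _ h => h.1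

theorem far (x m b c g : ℝ) (h1 : b = m - x) (h2 : c - b * m = -x) (h3 : m * c = x)
    (h4 : c * g = m ^ 2) (h5 : 1 ≤ g) (h6 : 0 < c) (h7 : 0 < c - b ^ 2 / 4)
    (h8 : (c - b * (m + b) + (m + b) ^ 2) * ((x ^ 2 + 2 * x - m * x) ^ 2 +
      b * (x ^ 2 + 2 * x - m * x) * (x - m) + c * (x - m) ^ 2) <
      (c - b ^ 2 / 4) * (x ^ 2 + 2 * x + b * x + c) ^ 2 * g ^ 10) (n : ℕ) (hn : 10 ≤ n) :
    p x n ≠ 0 := by
  have hF : ∀ n, p x (n + 2) + b * p x (n + 1) + c * p x n =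
      m ^ n * (x ^ 2 + 2 * x + b * x + c) := by
    intro n
    induction n with
    | zero => simp [p0]
    | succ n ih =>
      rw [pow_succ', mul_assoc, ← ih, p_rec]
      linear_combination p x (n + 2) * h1 + p x (n + 1) * h2 - p x n * h3
  have hQ : ∀ n, (p x (n + 2) - m * p x (n + 1)) ^ 2 +
      b * (p x (n + 2) - m * p x (n + 1)) * (p x (n + 1) - m * p x n) +
      c * (p x (n + 1) - m * p x n) ^ 2 = c ^ n * ((x ^ 2 + 2 * x - m * x) ^ 2 +
      b * (x ^ 2 + 2 * x - m * x) * (x - m) + c * (x - m) ^ 2) := by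
    intro n
    induction n with
    | zero => simp [p0]
    | succ n ih =>
      have : p x (n + 1 + 2) - m * p x (n + 1 + 1) =
          - b * (p x (n + 2) - m * p x (n + 1)) - c * (p x (n + 1) - m * p x n) := by
        rw [p_rec]
        linear_combination p x (n + 2) * h1 + p x (n + 1) * h2 - p x n * h3
      rw [pow_succ' c n, mul_assoc c, ← ih, this]
      ring
  intro h0
  have e1 := hF n
  have e2 := hQ n
  rw [h0] at e1 e2
  generalize (x ^ 2 + 2 * x - m * x) ^ 2 + b * (x ^ 2 + 2 * x - m * x) * (x - m) +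
    c * (x - m) ^ 2 = Q at *
  generalize x ^ 2 + 2 * x + b * x + c = F at *
  have e3 : (c - b ^ 2 / 4) * (m ^ n * F) ^ 2 ≤ (c - b * (m + b) + (m + b) ^ 2) * (c ^ n * Q) := by
    rw [← e1, ← e2]
    nlinarith [sq_nonneg ((m + b / 2) * (p x (n + 2) - m * p x (n + 1)) -
      (c - b * (m + b) / 2) * p x (n + 1))]
  have e4 : (m ^ n * F) ^ 2 = c ^ n * (F ^ 2 * g ^ n) := by
    rw [mul_pow, ← pow_mul, mul_comm n, pow_mul, ← h4, mul_pow]; ring
  have e5 : F ^ 2 * g ^ 10 ≤ F ^ 2 * g ^ n :=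
    mul_le_mul_of_nonneg_left (pow_le_pow_right₀ h5 hn) (sq_nonneg _)
  have e6 := mul_lt_mul_of_pos_left h8 (pow_pos h6 n)
  have e7 := mul_le_mul_of_nonneg_left e5 (mul_pos (pow_pos h6 n) h7).le
  rw [e4] at e3
  nlinarith

noncomputable def X (m : ℝ) : ℝ := m ^ 3 / (m ^ 2 + m + 1)

theorem g_pos (m : ℝ) : m ^ 2 + m + 1 ≠ 0 := by nlinarith [sq_nonneg (m + 1 / 2)]

theorem cont : Continuous X := by
  unfold X
  exact Continuous.div (by fun_prop) (by fun_prop) g_pos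

theorem cont_p (n : ℕ) : Continuous fun x => p x n := by
  unfold p sm
  refine continuous_finsetSum _ fun S _ => ?_
  split_ifs <;> fun_prop

theorem near : ∀ᶠ m in 𝓝 (-3 / 2 : ℝ), ∀ n, p (X m) n ≠ 0 := by
  have hX := cont
  have hc : Continuous fun m : ℝ => m ^ 2 / (m ^ 2 + m + 1) :=
    Continuous.div (by fun_prop) (by fun_prop) g_pos
  have a1 : ∀ᶠ m in 𝓝 (-3 / 2 : ℝ), ∀ n ∈ range 10, p (X m) n ≠ 0 := by
    rw [eventually_all_finset]
    intro n hn
    refine ((cont_p n).comp hX).continuousAt.eventually_ne ?_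
    have : X (-3 / 2) = -27 / 14 := by norm_num [X]
    rw [Function.comp_apply, this]
    rw [mem_range] at hn
    interval_cases n <;> norm_num [p_rec _ 6, p_rec _ 5, p_rec _ 4, p_rec _ 3, p_rec _ 2,
      p_rec _ 1, p_rec _ 0, p0]
  have a2 : ∀ᶠ m in 𝓝 (-3 / 2 : ℝ), 1 < m ^ 2 + m + 1 :=
    ContinuousAt.eventually_lt (by fun_prop) (by fun_prop) (by norm_num)
  have a3 : ∀ᶠ m in 𝓝 (-3 / 2 : ℝ), 0 < m ^ 2 / (m ^ 2 + m + 1) :=
    ContinuousAt.eventually_lt (by fun_prop) hc.continuousAt (by norm_num)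
  have a4 : ∀ᶠ m in 𝓝 (-3 / 2 : ℝ), 0 < m ^ 2 / (m ^ 2 + m + 1) - (m - X m) ^ 2 / 4 :=
    ContinuousAt.eventually_lt (by fun_prop) (Continuous.continuousAt (by fun_prop))
      (by norm_num [X])
  let c : ℝ → ℝ := fun m => m ^ 2 / (m ^ 2 + m + 1)
  have a5 : ∀ᶠ m in 𝓝 (-3 / 2 : ℝ), (c m - (m - X m) * (m + (m - X m)) + (m + (m - X m)) ^ 2) *
      ((X m ^ 2 + 2 * X m - m * X m) ^ 2 +
      (m - X m) * (X m ^ 2 + 2 * X m - m * X m) * (X m - m) + c m * (X m - m) ^ 2) <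
      (c m - (m - X m) ^ 2 / 4) * (X m ^ 2 + 2 * X m + (m - X m) * X m + c m) ^ 2 *
        (m ^ 2 + m + 1) ^ 10 :=
    ContinuousAt.eventually_lt (Continuous.continuousAt (by fun_prop))
      (Continuous.continuousAt (by fun_prop)) (by norm_num [X, c])
  filter_upwards [a1, a2, a3, a4, a5] with m b1 b2 b3 b4 b5 n
  have := g_pos m
  rcases lt_or_ge n 10 with h | h
  · exact b1 n (mem_range.2 h)
  · refine far _ m _ _ _ rfl ?_ ?_ ?_ b2.le b3 b4 b5 n h
    · unfold X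
      linear_combination m ^ 2 * mul_inv_cancel₀ this
    · unfold X; ring
    · exact div_mul_cancel₀ _ this

theorem result : ∃ a b : ℝ, -2 ≤ a ∧ a < b ∧ b ≤ 0 ∧
    ∀ n, 1 ≤ n → ∀ x ∈ Set.Icc a b, domPoly (SimpleGraph.pathGraph n) x ≠ 0 := by
  obtain ⟨e, he, h⟩ := Metric.eventually_nhds_iff.1 near
  have h1 : 0 < min (e / 2) 1 := by positivity
  have h2 := min_le_left (e / 2) 1
  have h3 := min_le_right (e / 2) 1
  generalize min (e / 2) 1 = d at h1 h2 h3
  have h4 : 0 < (-3 / 2 + d) ^ 2 + (-3 / 2 + d) + 1 := by nlinarith [sq_nonneg (d - 1)]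
  refine ⟨X (-3 / 2), X (-3 / 2 + d), by norm_num [X], ?_, ?_, fun n hn x hx => ?_⟩
  · rw [show X (-3 / 2) = -27 / 14 by norm_num [X], X, lt_div_iff₀ h4]
    nlinarith [mul_pos h1 h1, mul_pos h1 (mul_pos h1 h1)]
  · refine div_nonpos_of_nonpos_of_nonneg (Odd.pow_nonpos (by decide) (by linarith)) h4.le
  · obtain ⟨m, hm, rfl⟩ := intermediate_value_Icc (by linarith) cont.continuousOn hx
    rw [dom_eq _ _ hn]
    refine h ?_ n
    rw [Real.dist_eq, abs_lt]
    constructor <;> linarith [hm.1, hm.2]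

end Pool.Agent.Results.MP_130e73_co.NotDense
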